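import Pool.Agent.LibGW18.Tor

/-! Gaussian moments of trigonometric sums with separated frequencies. -/

open MeasureTheory ProbabilityTheory Set Filter Topology Mes

namespace GWin

private theorem ex_int (c : ℂ) (x : ℝ → ℝ) (hx : Continuous x) :
    Integrable (fun t => c * ex (x t)) un := by
  refine Integrable.const_mul ?_ _
  exact Integrable.of_bound (ex_cont.comp hx).aestronglyMeasurable 1
    (Eventually.of_forall fun θ => by rw [ex_norm])

theorem un_re (c : ℂ) (n : ℤ) :
    ∫ t, (c * ex (2 * Real.pi * (n * t))).re ∂un = if n = 0 then c.re else 0 := by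
  have h1 := Complex.reCLM.integral_comp_comm
    (ex_int c (fun t => 2 * Real.pi * (n * t)) (by fun_prop))
  simp only [Complex.reCLM_apply] at h1
  rw [h1, integral_const_mul, un_ex]
  split_ifs <;> simp

theorem un_cross (c d : ℂ) (m n : ℤ) (hmn : m + n ≠ 0) :
    ∫ t, (c * ex (2 * Real.pi * (m * t))).re * (d * ex (2 * Real.pi * (n * t))).re ∂un =
      if m = n then (c * (starRingEnd ℂ) d).re / 2 else 0 := by
  have h1 : ∀ t : ℝ, (c * ex (2 * Real.pi * (m * t))).re * (d * ex (2 * Real.pi * (n * t))).re =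
      (1 / 2) * (c * d * ex (2 * Real.pi * (((m + n : ℤ) : ℝ) * t))).re +
      (1 / 2) * (c * (starRingEnd ℂ) d * ex (2 * Real.pi * (((m - n : ℤ) : ℝ) * t))).re := by
    intro t
    have e1 : ex (2 * Real.pi * (((m + n : ℤ) : ℝ) * t)) =
        ex (2 * Real.pi * (m * t)) * ex (2 * Real.pi * (n * t)) := by
      rw [← ex_add]
      congr 1
      push_cast
      ring
    have e2 : ex (2 * Real.pi * (((m - n : ℤ) : ℝ) * t)) =
        ex (2 * Real.pi * (m * t)) * (starRingEnd ℂ) (ex (2 * Real.pi * (n * t))) := by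
      rw [ex_conj, ← ex_add]
      congr 1
      push_cast
      ring
    rw [e1, e2]
    simp only [Complex.mul_re, Complex.mul_im, Complex.conj_re, Complex.conj_im]
    ring
  simp_rw [h1]
  have hi : ∀ (e : ℂ) (n : ℤ), Integrable
      (fun t : ℝ => (1 / 2) * (e * ex (2 * Real.pi * ((n : ℝ) * t))).re) un := by
    intro e n
    exact (ex_int e (fun t => 2 * Real.pi * ((n : ℝ) * t)) (by fun_prop)).re.const_mul _
  rw [integral_add (hi _ _) (hi _ _), integral_const_mul, integral_const_mul, un_re, un_re,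
    if_neg hmn]
  by_cases h : m = n
  · rw [if_pos h, if_pos (by omega)]
    ring
  · rw [if_neg h, if_neg (by omega)]
    ring

theorem un_var {ι : Type} (A : Finset ι) (k : ι → ℤ) (c : ι → ℂ) (hk : ∀ q ∈ A, 1 ≤ k q)
    (hinj : ∀ q ∈ A, ∀ q' ∈ A, k q = k q' → q = q') :
    ∫ t, (∑ q ∈ A, (c q * ex (2 * Real.pi * (k q * t))).re) ^ 2 ∂un = ∑ q ∈ A, ‖c q‖ ^ 2 / 2 := by
  classical
  simp_rw [sq, Finset.sum_mul_sum]
  have hi : ∀ q q' : ι, Integrable (fun t : ℝ => (c q * ex (2 * Real.pi * (k q * t))).re *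
      (c q' * ex (2 * Real.pi * (k q' * t))).re) un := by
    intro q q'
    refine Integrable.of_bound (C := ‖c q‖ * ‖c q'‖) ?_ (Eventually.of_forall fun t => ?_)
    · refine Continuous.aestronglyMeasurable ?_
      refine (Complex.continuous_re.comp (continuous_const.mul (ex_cont.comp (by fun_prop)))).mul
        (Complex.continuous_re.comp (continuous_const.mul (ex_cont.comp (by fun_prop))))
    · rw [norm_mul]
      have h1 : ∀ q : ι, ‖(c q * ex (2 * Real.pi * (k q * t))).re‖ ≤ ‖c q‖ := by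
        intro q
        rw [Real.norm_eq_abs]
        refine (Complex.abs_re_le_norm _).trans ?_
        rw [norm_mul, ex_norm, mul_one]
      exact mul_le_mul (h1 q) (h1 q') (norm_nonneg _) (norm_nonneg _)
  rw [integral_finsetSum _ fun q _ => integrable_finsetSum _ fun q' _ => hi q q']
  refine Finset.sum_congr rfl fun q hq => ?_
  rw [integral_finsetSum _ fun q' _ => hi q q']
  have h2 : ∀ q' ∈ A, ∫ t, (c q * ex (2 * Real.pi * (k q * t))).re *
      (c q' * ex (2 * Real.pi * (k q' * t))).re ∂un =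
      if q' = q then ‖c q‖ * ‖c q‖ / 2 else 0 := by
    intro q' hq'
    have h3 := hk q hq
    have h4 := hk q' hq'
    rw [un_cross _ _ _ _ (by omega)]
    by_cases h : q' = q
    · subst h
      rw [if_pos rfl, if_pos rfl, Complex.mul_conj, Complex.normSq_eq_norm_sq]
      norm_cast
      rw [sq]
    · rw [if_neg h, if_neg fun h5 => h (hinj q hq q' hq' h5).symm]
  rw [Finset.sum_congr rfl h2, Finset.sum_ite_eq' A q, if_pos hq]

/-- The theorem for a finite set of geodesics. -/
theorem moments_fin (r : ℕ) : ∃ C : ℝ, 0 ≤ C ∧ ∀ (ι P : Type) [Fintype P] [DecidableEq P]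
    (S : Finset ι) (π : ι → P) (k : ι → ℤ) (c : ι → ℂ) (ℓ : P → ℝ) (δ T a : ℝ), 0 < δ → 0 < T →
    0 ≤ a → a ≤ 1 → (∀ q ∈ S, 1 ≤ k q) →
    (∀ q ∈ S, ∀ q' ∈ S, π q = π q' → k q = k q' → q = q') →
    (∀ p, ∑ q ∈ S with π q = p, ‖c q‖ ≤ a) →
    (∀ f : Fin r → ι × Bool, (∀ t, (f t).1 ∈ S) → (¬ ∀ p, expo π k f p = 0) →
      δ ≤ |∑ t, (sg (f t).2 : ℝ) * (k (f t).1 * ℓ (π (f t).1))|) →
    |(1 / T) * (∫ u in T..2 * T, (∑ q ∈ S, (c q * ex (u * (k q * ℓ (π q)))).re) ^ r) -
      gaussMom (∑ q ∈ S, ‖c q‖ ^ 2 / 2) r| ≤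
      C * (1 + √(∑ q ∈ S, ‖c q‖ ^ 2 / 2)) ^ r * a + 2 * (∑ q ∈ S, ‖c q‖) ^ r / (T * δ) := by
  obtain ⟨C, hC0, hC⟩ := ind_moments r
  refine ⟨C, hC0, ?_⟩
  intro ι P _ _ S π k c ℓ δ T a hδ hT ha0 ha1 hk hinj ha hsep
  have h1 := time_torus S π k c ℓ r hδ hT hsep
  obtain ⟨y, hy⟩ : ∃ y : P → ℝ → ℝ, ∀ p t, y p t =
      ∑ q ∈ S with π q = p, (c q * ex (2 * Real.pi * (k q * t))).re := ⟨_, fun _ _ => rfl⟩
  have hyc : ∀ p, Continuous (y p) := by
    intro p
    have : y p = fun t => ∑ q ∈ S with π q = p, (c q * ex (2 * Real.pi * (k q * t))).re := by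
      funext t
      exact hy p t
    rw [this]
    refine continuous_finsetSum _ fun q _ => ?_
    exact Complex.continuous_re.comp (continuous_const.mul (ex_cont.comp (by fun_prop)))
  have hev : ∀ (p : P) (g : ℝ → ℝ), Continuous g →
      ∫ θ : P → ℝ, g (θ p) ∂(Measure.pi fun _ => un) = ∫ t, g t ∂un := by
    intro p g hg
    have h2 := (measurePreserving_eval (fun _ : P => un) p).map_eq
    have h3 := integral_map (μ := Measure.pi fun _ : P => un) (φ := Function.eval p)
      (measurable_pi_apply p).aemeasurable (f := g) (by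
        rw [h2]
        exact hg.aestronglyMeasurable)
    rw [h2] at h3
    rw [h3]
  have h2 := hC (P → ℝ) (Measure.pi fun _ => un) P (fun p θ => y p (θ p)) a
    (iIndepFun_pi fun p => (hyc p).aemeasurable)
    (fun p => (hyc p).measurable.comp (measurable_pi_apply p))
    (fun p θ => by
      rw [hy]
      refine (Finset.abs_sum_le_sum_abs _ _).trans (le_trans ?_ (ha p))
      refine Finset.sum_le_sum fun q _ => ?_
      refine (Complex.abs_re_le_norm _).trans ?_
      rw [norm_mul, ex_norm, mul_one]) ha0 ha1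
    (fun p => by
      rw [hev p (y p) (hyc p)]
      simp_rw [hy]
      have hre : ∀ q, Integrable (fun t => (c q * ex (2 * Real.pi * (k q * t))).re) un := fun q =>
        (ex_int (c q) (fun t => 2 * Real.pi * (k q * t)) (by fun_prop)).re
      rw [integral_finsetSum _ fun q _ => hre q]
      refine Finset.sum_eq_zero fun q hq => ?_
      have h3 := hk q (Finset.mem_filter.1 hq).1
      have h4 := un_re (c q) (k q)
      rw [if_neg (by omega)] at h4
      exact h4) Finset.univ
  have h3 : ∀ θ : P → ℝ, ∑ p, y p (θ p) =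
      ∑ q ∈ S, (c q * ex (2 * Real.pi * (k q * θ (π q)))).re := by
    intro θ
    rw [← Finset.sum_fiberwise S π]
    refine Finset.sum_congr rfl fun p _ => ?_
    rw [hy]
    refine Finset.sum_congr rfl fun q hq => ?_
    rw [(Finset.mem_filter.1 hq).2]
  have h4 : ∑ p, ∫ θ : P → ℝ, y p (θ p) ^ 2 ∂(Measure.pi fun _ => un) =
      ∑ q ∈ S, ‖c q‖ ^ 2 / 2 := by
    rw [← Finset.sum_fiberwise S π]
    refine Finset.sum_congr rfl fun p _ => ?_
    rw [hev p (fun t => y p t ^ 2) ((hyc p).pow 2)]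
    simp_rw [hy]
    refine un_var _ k c (fun q hq => hk q (Finset.mem_filter.1 hq).1) fun q hq q' hq' h5 => ?_
    have h6 := Finset.mem_filter.1 hq
    have h7 := Finset.mem_filter.1 hq'
    exact hinj q h6.1 q' h7.1 (h6.2.trans h7.2.symm) h5
  simp_rw [h3] at h2
  rw [h4] at h2
  have h5 := abs_sub_le
    ((1 / T) * (∫ u in T..2 * T, (∑ q ∈ S, (c q * ex (u * (k q * ℓ (π q)))).re) ^ r))
    (∫ θ : P → ℝ, (∑ q ∈ S, (c q * ex (2 * Real.pi * (k q * θ (π q)))).re) ^ r
      ∂(Measure.pi fun _ => un)) (gaussMom (∑ q ∈ S, ‖c q‖ ^ 2 / 2) r)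
  linarith

/-- The moments over `[T, 2T]` of a trigonometric sum whose frequencies are multiples of separated
numbers `ℓ p`: Gaussian moments up to the size `a` of the largest term and to the separation. -/
theorem torus_moments (r : ℕ) : ∃ C : ℝ, 0 ≤ C ∧ ∀ (P : Type) (ℓ : P → ℝ) (S : Finset (P × ℕ))
    (c : P × ℕ → ℂ) (M δ T a : ℝ), (∀ p, 0 ≤ ℓ p) → (∀ q ∈ S, 1 ≤ q.2) →
    (∀ q ∈ S, q.2 * ℓ q.1 ≤ M) → 0 < δ → 0 < T → 0 ≤ a → a ≤ 1 →
    (∀ p, ∀ S' ⊆ S, (∀ q ∈ S', q.1 = p) → ∑ q ∈ S', ‖c q‖ ≤ a) →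
    (∀ e : P →₀ ℤ, e ≠ 0 → e.support.card ≤ r → (∀ p, |(e p : ℝ)| * ℓ p ≤ r * M) →
      δ ≤ |e.sum fun p n => n * ℓ p|) →
    |(1 / T) * (∫ u in T..2 * T, (∑ q ∈ S, (c q *
        Complex.exp (-((u * (q.2 * ℓ q.1) : ℝ) : ℂ) * Complex.I)).re) ^ r) -
      gaussMom (∑ q ∈ S, ‖c q‖ ^ 2 / 2) r| ≤
      C * (1 + √(∑ q ∈ S, ‖c q‖ ^ 2 / 2)) ^ r * a + 2 * (∑ q ∈ S, ‖c q‖) ^ r / (T * δ) := by
  classical
  obtain ⟨C, hC0, hC⟩ := moments_fin r
  refine ⟨C, hC0, ?_⟩
  intro P ℓ S c M δ T a hℓ hS1 hSM hδ hT ha0 ha1 ha hsep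
  have h1 := hC {q // q ∈ S} {p // p ∈ S.image Prod.fst} S.attach
    (fun q => ⟨q.1.1, Finset.mem_image_of_mem _ q.2⟩) (fun q => (q.1.2 : ℤ)) (fun q => c q.1)
    (fun p => ℓ p.1) δ T a hδ hT ha0 ha1 (fun q _ => by exact_mod_cast hS1 q.1 q.2)
    (fun q _ q' _ h2 h3 => by
      have h4 : q.1.1 = q'.1.1 := congrArg Subtype.val h2
      have h5 : q.1.2 = q'.1.2 := by exact_mod_cast h3
      exact Subtype.ext (Prod.ext h4 h5))
    (fun p => by
      have h2 := ha p.1 (S.filter fun q => q.1 = p.1) (Finset.filter_subset _ _)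
        fun q hq => (Finset.mem_filter.1 hq).2
      refine le_trans (le_of_eq ?_) h2
      rw [Finset.sum_filter, Finset.sum_filter, ← Finset.sum_attach S]
      refine Finset.sum_congr rfl fun q _ => ?_
      simp only [Subtype.ext_iff])
    (fun f hf hex => by
      push Not at hex
      obtain ⟨p₀, hp₀⟩ := hex
      -- the integer combination
      have hM0 : 0 ≤ (r : ℝ) * M := by
        rcases Nat.eq_zero_or_pos r with h0 | h0
        · subst h0
          simp
        · have h2 := hSM (f ⟨0, h0⟩).1.1 (f ⟨0, h0⟩).1.2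
          have h3 := hℓ (f ⟨0, h0⟩).1.1.1
          have h4 : 0 ≤ (((f ⟨0, h0⟩).1.1.2 : ℕ) : ℝ) * ℓ (f ⟨0, h0⟩).1.1.1 := by positivity
          have h5 : 0 ≤ M := h4.trans h2
          positivity
      obtain ⟨e, he⟩ : ∃ e : P →₀ ℤ, e = ∑ t : Fin r, Finsupp.single (f t).1.1.1
        (sg (f t).2 * ((f t).1.1.2 : ℤ)) := ⟨_, rfl⟩
      have hep : ∀ p, e p = ∑ t, if (f t).1.1.1 = p then sg (f t).2 * ((f t).1.1.2 : ℤ) else 0 := by
        intro p
        rw [he, Finsupp.finsetSum_apply]
        refine Finset.sum_congr rfl fun t _ => ?_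
        rw [Finsupp.single_apply]
      have he0 : e ≠ 0 := by
        intro h2
        apply hp₀
        have h3 : e p₀.1 = 0 := by rw [h2]; rfl
        rw [hep] at h3
        unfold expo
        refine Eq.trans (Finset.sum_congr rfl fun t _ => ?_) h3
        simp only [Subtype.ext_iff]
      have hcard : e.support.card ≤ r := by
        have h2 : e.support ⊆ Finset.univ.image fun t : Fin r => (f t).1.1.1 := by
          intro p hp
          rw [Finsupp.mem_support_iff, hep] at hp
          obtain ⟨t, -, ht⟩ := Finset.exists_ne_zero_of_sum_ne_zero hp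
          rw [Finset.mem_image]
          refine ⟨t, Finset.mem_univ _, ?_⟩
          by_contra h3
          rw [if_neg h3] at ht
          exact ht rfl
        calc e.support.card ≤ (Finset.univ.image fun t : Fin r => (f t).1.1.1).card :=
              Finset.card_le_card h2
          _ ≤ (Finset.univ : Finset (Fin r)).card := Finset.card_image_le
          _ = r := by simp
      have hbd : ∀ p, |(e p : ℝ)| * ℓ p ≤ r * M := by
        intro p
        have h2 : |(e p : ℝ)| ≤ ∑ t : Fin r, if (f t).1.1.1 = p then (((f t).1.1.2 : ℕ) : ℝ)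
            else 0 := by
          rw [hep]
          push_cast
          refine (Finset.abs_sum_le_sum_abs _ _).trans (Finset.sum_le_sum fun t _ => ?_)
          split_ifs with h3
          · rw [abs_mul, Nat.abs_cast]
            have h4 : |((sg (f t).2 : ℤ) : ℝ)| = 1 := by
              unfold sg
              split_ifs <;> simp
            rw [h4, one_mul]
          · simp
        calc |(e p : ℝ)| * ℓ p ≤ (∑ t : Fin r, if (f t).1.1.1 = p then (((f t).1.1.2 : ℕ) : ℝ)
            else 0) * ℓ p := mul_le_mul_of_nonneg_right h2 (hℓ p)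
          _ = ∑ t : Fin r, (if (f t).1.1.1 = p then (((f t).1.1.2 : ℕ) : ℝ) else 0) * ℓ p :=
              Finset.sum_mul _ _ _
          _ ≤ ∑ _t : Fin r, M := by
              refine Finset.sum_le_sum fun t _ => ?_
              have h5 := hSM (f t).1.1 (f t).1.2
              split_ifs with h3
              · rw [← h3]
                exact h5
              · rw [zero_mul]
                have h6 := hℓ (f t).1.1.1
                exact le_trans (by positivity) h5
          _ = r * M := by simp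
      have h2 := hsep e he0 hcard hbd
      have h3 : (e.sum fun p n => (n : ℝ) * ℓ p) =
          ∑ t, (sg (f t).2 : ℝ) * ((((f t).1.1.2 : ℕ) : ℤ) * ℓ (f t).1.1.1) := by
        rw [he, ← Finsupp.sum_finsetSum_index]
        · refine Finset.sum_congr rfl fun t _ => ?_
          rw [Finsupp.sum_single_index (by simp)]
          push_cast
          ring
        · intro p
          simp
        · intro p m n
          push_cast
          ring
      rw [h3] at h2
      exact h2)
  have e1 : ∀ u : ℝ, ∑ q ∈ S.attach, (c q.1 * ex (u * (((q.1.2 : ℕ) : ℤ) * ℓ q.1.1))).re =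
      ∑ q ∈ S, (c q * Complex.exp (-((u * (q.2 * ℓ q.1) : ℝ) : ℂ) * Complex.I)).re := by
    intro u
    rw [← Finset.sum_attach S]
    refine Finset.sum_congr rfl fun q _ => ?_
    unfold ex
    rw [Int.cast_natCast]
  simp_rw [e1] at h1
  rw [Finset.sum_attach S fun q => ‖c q‖ ^ 2 / 2, Finset.sum_attach S fun q => ‖c q‖] at h1
  exact h1

end GWin
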