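import Pool.Agent.LibGW18.Ind

/-! Time averages of powers of trigonometric sums and averages over the torus. -/

open MeasureTheory ProbabilityTheory Set Filter Topology Mes

namespace GWin

/-- The uniform distribution on the unit interval. -/
noncomputable def un : Measure ℝ := volume.restrict (Ioc 0 1)

instance : IsProbabilityMeasure un := ⟨by simp [un]⟩

/-- `e^{- i x}`. -/
noncomputable def ex (x : ℝ) : ℂ := Complex.exp (-((x : ℝ) : ℂ) * Complex.I)

theorem ex_zero : ex 0 = 1 := by simp [ex]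

theorem ex_add (x y : ℝ) : ex (x + y) = ex x * ex y := by
  unfold ex
  rw [← Complex.exp_add]
  congr 1
  push_cast
  ring

theorem ex_conj (x : ℝ) : (starRingEnd ℂ) (ex x) = ex (-x) := by
  unfold ex
  rw [← Complex.exp_conj]
  congr 1
  simp

theorem ex_norm (x : ℝ) : ‖ex x‖ = 1 := by
  unfold ex
  rw [Complex.norm_exp]
  simp

theorem ex_cont : Continuous ex := by
  unfold ex
  fun_prop

theorem ex_sum {α : Type} (s : Finset α) (x : α → ℝ) : ex (∑ i ∈ s, x i) = ∏ i ∈ s, ex (x i) := by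
  classical
  induction s using Finset.induction_on with
  | empty => simp [ex_zero]
  | insert i s hi ih => rw [Finset.sum_insert hi, Finset.prod_insert hi, ex_add, ih]

theorem ex_interval {a b Λ : ℝ} (h : Λ ≠ 0) : ‖∫ u in a..b, ex (u * Λ)‖ ≤ 2 / |Λ| := by
  have h1 : ∀ u : ℝ, ex (u * Λ) = Complex.exp ((-(Λ : ℂ) * Complex.I) * u) := by
    intro u
    unfold ex
    congr 1
    push_cast
    ring
  have hc : (-(Λ : ℂ) * Complex.I) ≠ 0 := by
    simp [h]
  simp_rw [h1]
  rw [integral_exp_mul_complex hc]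
  have h2 : ∀ u : ℝ, ‖Complex.exp ((-(Λ : ℂ) * Complex.I) * u)‖ = 1 := by
    intro u
    rw [← h1, ex_norm]
  rw [norm_div]
  have h3 : ‖(-(Λ : ℂ) * Complex.I)‖ = |Λ| := by simp
  rw [h3]
  have h4 : ‖Complex.exp ((-(Λ : ℂ) * Complex.I) * b) - Complex.exp ((-(Λ : ℂ) * Complex.I) * a)‖ ≤ 2 := by
    refine (norm_sub_le _ _).trans ?_
    rw [h2, h2]
    norm_num
  exact div_le_div_of_nonneg_right h4 (abs_nonneg _)

theorem un_ex (n : ℤ) : ∫ t, ex (2 * Real.pi * (n * t)) ∂un = if n = 0 then 1 else 0 := by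
  by_cases h : n = 0
  · subst h
    simp [ex_zero]
  · rw [if_neg h]
    unfold un
    rw [← intervalIntegral.integral_of_le zero_le_one]
    have h1 : ∀ t : ℝ, ex (2 * Real.pi * (n * t)) =
        Complex.exp ((-(2 * Real.pi * n : ℝ) * Complex.I) * t) := by
      intro t
      unfold ex
      congr 1
      push_cast
      ring
    have hn : (2 * Real.pi * n : ℝ) ≠ 0 := by
      have := Real.pi_pos
      have h2 : (n : ℝ) ≠ 0 := by exact_mod_cast h
      positivity
    have hc : (-((2 * Real.pi * n : ℝ) : ℂ) * Complex.I) ≠ 0 := by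
      have : ((2 * Real.pi * n : ℝ) : ℂ) ≠ 0 := by exact_mod_cast hn
      exact mul_ne_zero (neg_ne_zero.2 this) Complex.I_ne_zero
    simp_rw [h1]
    rw [integral_exp_mul_complex hc]
    have h3 : Complex.exp ((-((2 * Real.pi * n : ℝ) : ℂ) * Complex.I) * (1 : ℝ)) = 1 := by
      rw [Complex.exp_eq_one_iff]
      refine ⟨-n, ?_⟩
      push_cast
      ring
    rw [h3]
    simp

/-- The sign of a Boolean. -/
def sg (b : Bool) : ℤ := if b then 1 else -1

/-- The coefficient of `e^{∓ i x}` in `Re (c e^{- i x})`. -/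
noncomputable def cf2 {ι : Type} (c : ι → ℂ) (q : ι × Bool) : ℂ :=
  if q.2 then c q.1 / 2 else (starRingEnd ℂ) (c q.1) / 2

theorem cf2_norm {ι : Type} (c : ι → ℂ) (q : ι × Bool) : ‖cf2 c q‖ = ‖c q.1‖ / 2 := by
  unfold cf2
  split_ifs <;> simp

theorem re_ex (c : ℂ) (x : ℝ) : (((c * ex x).re : ℝ) : ℂ) =
    c / 2 * ex x + (starRingEnd ℂ) c / 2 * ex (-x) := by
  rw [Complex.re_eq_add_conj, map_mul, ex_conj]
  ring

theorem pow_expand {ι : Type} (S : Finset ι) (c : ι → ℂ) (φ : ι → ℝ) (r : ℕ) :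
    (((∑ q ∈ S, (c q * ex (φ q)).re) ^ r : ℝ) : ℂ) =
      ∑ f ∈ Fintype.piFinset (fun _ : Fin r => S ×ˢ (Finset.univ : Finset Bool)),
        (∏ t, cf2 c (f t)) * ex (∑ t, (sg (f t).2 : ℝ) * φ (f t).1) := by
  have h1 : ((∑ q ∈ S, (c q * ex (φ q)).re : ℝ) : ℂ) =
      ∑ q ∈ S ×ˢ (Finset.univ : Finset Bool), cf2 c q * ex ((sg q.2 : ℝ) * φ q.1) := by
    rw [Finset.sum_product]
    push_cast
    refine Finset.sum_congr rfl fun q _ => ?_
    rw [re_ex, Fintype.sum_bool]
    simp [cf2, sg]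
  rw [Complex.ofReal_pow, h1, Finset.sum_pow']
  refine Finset.sum_congr rfl fun f _ => ?_
  rw [Finset.prod_mul_distrib, ex_sum]

theorem cf2_sum {ι : Type} (S : Finset ι) (c : ι → ℂ) (r : ℕ) :
    ∑ f ∈ Fintype.piFinset (fun _ : Fin r => S ×ˢ (Finset.univ : Finset Bool)),
      ‖∏ t, cf2 c (f t)‖ = (∑ q ∈ S, ‖c q‖) ^ r := by
  have h1 : ∑ q ∈ S ×ˢ (Finset.univ : Finset Bool), ‖cf2 c q‖ = ∑ q ∈ S, ‖c q‖ := by
    rw [Finset.sum_product]
    refine Finset.sum_congr rfl fun q _ => ?_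
    rw [Fintype.sum_bool, cf2_norm, cf2_norm]
    simp
  rw [← h1, Finset.sum_pow']
  refine Finset.sum_congr rfl fun f _ => ?_
  rw [norm_prod]

/-- The exponent of the variable `p` in the monomial of `f`. -/
def expo {ι P : Type} [DecidableEq P] {r : ℕ} (π : ι → P) (k : ι → ℤ) (f : Fin r → ι × Bool)
    (p : P) : ℤ := ∑ t, if π (f t).1 = p then sg (f t).2 * k (f t).1 else 0

theorem expo_sum {ι P : Type} [Fintype P] [DecidableEq P] {r : ℕ} (π : ι → P) (k : ι → ℤ)
    (f : Fin r → ι × Bool) (x : P → ℝ) :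
    ∑ t, (sg (f t).2 : ℝ) * (k (f t).1 * x (π (f t).1)) = ∑ p, (expo π k f p : ℝ) * x p := by
  have h1 : ∀ p, (expo π k f p : ℝ) * x p =
      ∑ t, if π (f t).1 = p then (sg (f t).2 : ℝ) * (k (f t).1 * x p) else 0 := by
    intro p
    unfold expo
    push_cast
    rw [Finset.sum_mul]
    refine Finset.sum_congr rfl fun t _ => ?_
    split_ifs
    · ring
    · simp
  simp_rw [h1]
  rw [Finset.sum_comm]
  refine Finset.sum_congr rfl fun t _ => ?_
  rw [Finset.sum_ite_eq]
  simp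

/-- The mean over the torus of a monomial. -/
theorem torus_mono {ι P : Type} [Fintype P] [DecidableEq P] {r : ℕ} (π : ι → P) (k : ι → ℤ)
    (f : Fin r → ι × Bool) :
    ∫ θ : P → ℝ, ex (∑ t, (sg (f t).2 : ℝ) * (2 * Real.pi * (k (f t).1 * θ (π (f t).1))))
      ∂(Measure.pi fun _ => un) = if ∀ p, expo π k f p = 0 then 1 else 0 := by
  have h1 : ∀ θ : P → ℝ, ex (∑ t, (sg (f t).2 : ℝ) * (2 * Real.pi *
      (k (f t).1 * θ (π (f t).1)))) = ∏ p, ex (2 * Real.pi * ((expo π k f p : ℝ) * θ p)) := by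
    intro θ
    rw [← ex_sum, ← Finset.mul_sum, ← expo_sum, Finset.mul_sum]
    congr 1
    exact Finset.sum_congr rfl fun t _ => by ring
  simp_rw [h1]
  rw [integral_fintype_prod_eq_prod (fun p (t : ℝ) => ex (2 * Real.pi * ((expo π k f p : ℝ) * t)))]
  simp_rw [un_ex]
  by_cases h : ∀ p, expo π k f p = 0
  · rw [if_pos h]
    exact Finset.prod_eq_one fun p _ => if_pos (h p)
  · rw [if_neg h]
    push Not at h
    obtain ⟨p, hp⟩ := h
    exact Finset.prod_eq_zero (Finset.mem_univ p) (if_neg hp)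

/-- Comparison of the time average and the torus average. -/
theorem time_torus {ι P : Type} [Fintype P] [DecidableEq P] (S : Finset ι) (π : ι → P) (k : ι → ℤ)
    (c : ι → ℂ) (ℓ : P → ℝ) (r : ℕ) {δ T : ℝ} (hδ : 0 < δ) (hT : 0 < T)
    (hsep : ∀ f : Fin r → ι × Bool, (∀ t, (f t).1 ∈ S) → (¬ ∀ p, expo π k f p = 0) →
      δ ≤ |∑ t, (sg (f t).2 : ℝ) * (k (f t).1 * ℓ (π (f t).1))|) :
    |(1 / T) * (∫ u in T..2 * T, (∑ q ∈ S, (c q * ex (u * (k q * ℓ (π q)))).re) ^ r) -
      ∫ θ : P → ℝ, (∑ q ∈ S, (c q * ex (2 * Real.pi * (k q * θ (π q)))).re) ^ r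
        ∂(Measure.pi fun _ => un)| ≤ 2 * (∑ q ∈ S, ‖c q‖) ^ r / (T * δ) := by
  have e1 : (((1 / T) * (∫ u in T..2 * T, (∑ q ∈ S, (c q * ex (u * (k q * ℓ (π q)))).re) ^ r) :
      ℝ) : ℂ) = ∑ f ∈ Fintype.piFinset (fun _ : Fin r => S ×ˢ (Finset.univ : Finset Bool)),
        (∏ t, cf2 c (f t)) * ((1 / T : ℝ) * ∫ u in T..2 * T,
          ex (u * ∑ t, (sg (f t).2 : ℝ) * (k (f t).1 * ℓ (π (f t).1)))) := by
    rw [Complex.ofReal_mul, ← intervalIntegral.integral_ofReal]
    simp_rw [pow_expand]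
    rw [intervalIntegral.integral_finsetSum, Finset.mul_sum]
    · refine Finset.sum_congr rfl fun f _ => ?_
      rw [intervalIntegral.integral_const_mul]
      have e2 : ∀ u : ℝ, ∑ t, (sg (f t).2 : ℝ) * (u * (k (f t).1 * ℓ (π (f t).1))) =
          u * ∑ t, (sg (f t).2 : ℝ) * (k (f t).1 * ℓ (π (f t).1)) := by
        intro u
        rw [Finset.mul_sum]
        exact Finset.sum_congr rfl fun t _ => by ring
      simp_rw [e2]
      ring
    · intro f _
      refine Continuous.intervalIntegrable ?_ _ _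
      exact continuous_const.mul (ex_cont.comp (by fun_prop))
  have e3 : ((∫ θ : P → ℝ, (∑ q ∈ S, (c q * ex (2 * Real.pi * (k q * θ (π q)))).re) ^ r
      ∂(Measure.pi fun _ => un) : ℝ) : ℂ) =
      ∑ f ∈ Fintype.piFinset (fun _ : Fin r => S ×ˢ (Finset.univ : Finset Bool)),
        (∏ t, cf2 c (f t)) * (if ∀ p, expo π k f p = 0 then 1 else 0) := by
    rw [← integral_complex_ofReal]
    simp_rw [pow_expand]
    rw [integral_finsetSum]
    · refine Finset.sum_congr rfl fun f _ => ?_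
      rw [integral_const_mul, torus_mono]
    · intro f _
      refine Integrable.const_mul ?_ _
      refine Integrable.of_bound ?_ 1 (Eventually.of_forall fun θ => by rw [ex_norm])
      refine (ex_cont.comp ?_).aestronglyMeasurable
      fun_prop
  have e4 : ∀ x y : ℝ, |x - y| = ‖(x : ℂ) - (y : ℂ)‖ := by
    intro x y
    rw [← Complex.ofReal_sub, Complex.norm_real, Real.norm_eq_abs]
  rw [e4, e1, e3, ← Finset.sum_sub_distrib]
  refine (norm_sum_le _ _).trans ?_
  have hterm : ∀ f ∈ Fintype.piFinset (fun _ : Fin r => S ×ˢ (Finset.univ : Finset Bool)),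
      ‖(∏ t, cf2 c (f t)) * ((1 / T : ℝ) * ∫ u in T..2 * T,
          ex (u * ∑ t, (sg (f t).2 : ℝ) * (k (f t).1 * ℓ (π (f t).1)))) -
        (∏ t, cf2 c (f t)) * (if ∀ p, expo π k f p = 0 then 1 else 0)‖ ≤
      ‖∏ t, cf2 c (f t)‖ * (2 / (T * δ)) := by
    intro f hf
    rw [← mul_sub, norm_mul]
    refine mul_le_mul_of_nonneg_left ?_ (norm_nonneg _)
    by_cases h : ∀ p, expo π k f p = 0
    · rw [if_pos h]
      have h1 : ∑ t, (sg (f t).2 : ℝ) * (k (f t).1 * ℓ (π (f t).1)) = 0 := by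
        rw [expo_sum]
        refine Finset.sum_eq_zero fun p _ => ?_
        rw [h p]
        simp
      have h2 : ∫ u in T..2 * T, ex (u * 0) = (T : ℂ) := by
        simp_rw [mul_zero, ex_zero]
        rw [intervalIntegral.integral_const]
        simp only [Complex.real_smul, mul_one]
        congr 1
        ring
      rw [h1, h2]
      have h3 : ((1 / T : ℝ) : ℂ) * (T : ℂ) - 1 = 0 := by
        rw [← Complex.ofReal_mul, one_div, inv_mul_cancel₀ hT.ne']
        simp
      rw [h3, norm_zero]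
      positivity
    · rw [if_neg h, sub_zero]
      have hS : ∀ t, (f t).1 ∈ S := fun t => by
        have := Fintype.mem_piFinset.1 hf t
        exact (Finset.mem_product.1 this).1
      have h1 := hsep f hS h
      have h2 : ∑ t, (sg (f t).2 : ℝ) * (k (f t).1 * ℓ (π (f t).1)) ≠ 0 := by
        intro h3
        rw [h3, abs_zero] at h1
        linarith
      have h4 := ex_interval (a := T) (b := 2 * T) h2
      rw [norm_mul, Complex.norm_real, Real.norm_eq_abs, abs_of_pos (by positivity)]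
      calc 1 / T * ‖∫ u in T..2 * T, ex (u * ∑ t, (sg (f t).2 : ℝ) *
            (k (f t).1 * ℓ (π (f t).1)))‖
          ≤ 1 / T * (2 / |∑ t, (sg (f t).2 : ℝ) * (k (f t).1 * ℓ (π (f t).1))|) :=
            mul_le_mul_of_nonneg_left h4 (by positivity)
        _ ≤ 1 / T * (2 / δ) := by
            refine mul_le_mul_of_nonneg_left ?_ (by positivity)
            exact div_le_div_of_nonneg_left (by norm_num) hδ h1
        _ = 2 / (T * δ) := by
            field_simp
  refine (Finset.sum_le_sum hterm).trans (le_of_eq ?_)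
  rw [← Finset.sum_mul, cf2_sum]
  ring

end GWin
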