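import Pool.Agent.LibMes.FDefs

/-! Moments of sums of independent bounded centred random variables: comparison with the Gaussian
law. -/

open MeasureTheory ProbabilityTheory Set Filter Topology Mes

namespace GWin

/-- The moments of the standard Gaussian law. -/
noncomputable def gmc (r : ℕ) : ℝ := if Even r then (Nat.doubleFactorial (r - 1) : ℝ) else 0

theorem gmc_nonneg (r : ℕ) : 0 ≤ gmc r := by
  unfold gmc
  split_ifs <;> positivity

theorem gaussMom_gmc (S : ℝ) (r : ℕ) : gaussMom S r = gmc r * S ^ (r / 2) := by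
  unfold gaussMom gmc
  split_ifs <;> simp

theorem gaussMom_add_two (S : ℝ) (n : ℕ) : gaussMom S (n + 2) = (n + 1) * S * gaussMom S n := by
  rw [gaussMom_gmc, gaussMom_gmc, Nat.add_div_right n (by norm_num), pow_succ]
  unfold gmc
  by_cases h : Even n
  · have h2 : Even (n + 2) := h.add (by norm_num)
    rw [if_pos h, if_pos h2]
    rcases n with _ | m
    · norm_num
    · rw [show m + 1 + 2 - 1 = m + 2 by omega, show m + 1 - 1 = m by omega,
        Nat.doubleFactorial_add_two]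
      push_cast
      ring
  · have h2 : ¬ Even (n + 2) := by
      intro h3
      apply h
      rw [Nat.even_add] at h3
      exact h3.2 (by norm_num)
    rw [if_neg h, if_neg h2]
    ring

private theorem pow_sub_le {V W B : ℝ} (hW : 0 ≤ W) (hWV : W ≤ V) (hB : 1 ≤ B) (hV : V ≤ B ^ 2)
    (m : ℕ) : |W ^ m - V ^ m| ≤ m * B ^ (2 * m) * (V - W) := by
  have h0 : ∀ m : ℕ, V ^ m - W ^ m ≤ m * B ^ (2 * m) * (V - W) := by
    intro m
    induction m with
    | zero => simp
    | succ m ih =>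
      have h1 : V ^ (m + 1) - W ^ (m + 1) = V * (V ^ m - W ^ m) + (V - W) * W ^ m := by ring
      have h2 : W ^ m ≤ B ^ (2 * m) := by
        rw [pow_mul]
        exact pow_le_pow_left₀ hW (hWV.trans hV) m
      have h3 : B ^ (2 * m) ≤ B ^ (2 * (m + 1)) := pow_le_pow_right₀ hB (by omega)
      have h4 : V * (V ^ m - W ^ m) ≤ B ^ 2 * (m * B ^ (2 * m) * (V - W)) := by
        have h5 : 0 ≤ V ^ m - W ^ m := sub_nonneg.2 (pow_le_pow_left₀ hW hWV m)
        exact mul_le_mul hV ih h5 (by positivity)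
      have h6 : (V - W) * W ^ m ≤ (V - W) * B ^ (2 * (m + 1)) :=
        mul_le_mul_of_nonneg_left (h2.trans h3) (by linarith)
      rw [h1]
      push_cast
      calc V * (V ^ m - W ^ m) + (V - W) * W ^ m
          ≤ B ^ 2 * (m * B ^ (2 * m) * (V - W)) + (V - W) * B ^ (2 * (m + 1)) := add_le_add h4 h6
        _ = (m + 1) * B ^ (2 * (m + 1)) * (V - W) := by ring
  have h7 : 0 ≤ V ^ m - W ^ m := sub_nonneg.2 (pow_le_pow_left₀ hW hWV m)
  rw [abs_sub_comm, abs_of_nonneg h7]
  exact h0 m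

private theorem bint {Ω : Type} [MeasurableSpace Ω] {μ : Measure Ω} [IsProbabilityMeasure μ]
    {f : Ω → ℝ} (hf : Measurable f) {K : ℝ} (h : ∀ ω, |f ω| ≤ K) : Integrable f μ :=
  Integrable.of_bound hf.aestronglyMeasurable K (Eventually.of_forall fun ω => by
    rw [Real.norm_eq_abs]; exact h ω)

/-- The expansion of `E (Y i * S ^ (n + 1))`. -/
private theorem expand {Ω : Type} [MeasurableSpace Ω] {μ : Measure Ω} [IsProbabilityMeasure μ]
    {ι : Type} [DecidableEq ι] {Y : ι → Ω → ℝ} {a : ℝ} (hY : iIndepFun Y μ)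
    (hm : ∀ i, Measurable (Y i)) (hb : ∀ i ω, |Y i ω| ≤ a) (s : Finset ι) {i : ι} (hi : i ∈ s)
    (n : ℕ) :
    ∫ ω, Y i ω * (∑ j ∈ s, Y j ω) ^ (n + 1) ∂μ =
      ∑ j ∈ Finset.range (n + 2), ((n + 1).choose j : ℝ) * (∫ ω, Y i ω ^ (j + 1) ∂μ) *
        ∫ ω, (∑ l ∈ s.erase i, Y l ω) ^ (n + 1 - j) ∂μ := by
  have hSm : Measurable fun ω => ∑ l ∈ s.erase i, Y l ω := Finset.measurable_sum _ fun l _ => hm l
  have hSb : ∀ ω, |∑ l ∈ s.erase i, Y l ω| ≤ (s.erase i).card * a := by
    intro ω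
    calc |∑ l ∈ s.erase i, Y l ω| ≤ ∑ l ∈ s.erase i, |Y l ω| := Finset.abs_sum_le_sum_abs _ _
      _ ≤ ∑ _l ∈ s.erase i, a := Finset.sum_le_sum fun l _ => hb l ω
      _ = (s.erase i).card * a := by rw [Finset.sum_const, nsmul_eq_mul]
  have hint : ∀ p q : ℕ, Integrable (fun ω => Y i ω ^ p * (∑ l ∈ s.erase i, Y l ω) ^ q) μ := by
    intro p q
    refine bint (((hm i).pow_const p).mul (hSm.pow_const q))
      (K := a ^ p * ((s.erase i).card * a) ^ q) fun ω => ?_
    rw [abs_mul, abs_pow, abs_pow]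
    have ha : 0 ≤ a := (abs_nonneg _).trans (hb i ω)
    exact mul_le_mul (pow_le_pow_left₀ (abs_nonneg _) (hb i ω) p)
      (pow_le_pow_left₀ (abs_nonneg _) (hSb ω) q) (by positivity) (by positivity)
  have hind : ∀ p q : ℕ, ∫ ω, Y i ω ^ p * (∑ l ∈ s.erase i, Y l ω) ^ q ∂μ =
      (∫ ω, Y i ω ^ p ∂μ) * ∫ ω, (∑ l ∈ s.erase i, Y l ω) ^ q ∂μ := by
    intro p q
    have h1 := hY.indepFun_finsetSum_of_notMem hm (Finset.notMem_erase i s)
    have h2 : IndepFun (fun ω => Y i ω ^ p) (fun ω => (∑ l ∈ s.erase i, Y l ω) ^ q) μ := by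
      have h3 := h1.symm.comp (φ := fun x : ℝ => x ^ p) (ψ := fun x : ℝ => x ^ q)
        (measurable_id.pow_const p) (measurable_id.pow_const q)
      have e1 : (fun x : ℝ => x ^ q) ∘ (∑ l ∈ s.erase i, Y l) =
          fun ω => (∑ l ∈ s.erase i, Y l ω) ^ q := by
        funext ω
        simp only [Function.comp_apply, Finset.sum_apply]
      rw [e1] at h3
      exact h3
    exact h2.integral_fun_mul_eq_mul_integral ((hm i).pow_const p).aestronglyMeasurable
      (hSm.pow_const q).aestronglyMeasurable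
  have h1 : ∀ ω, Y i ω * (∑ j ∈ s, Y j ω) ^ (n + 1) =
      ∑ j ∈ Finset.range (n + 2), ((n + 1).choose j : ℝ) *
        (Y i ω ^ (j + 1) * (∑ l ∈ s.erase i, Y l ω) ^ (n + 1 - j)) := by
    intro ω
    rw [← Finset.add_sum_erase s (fun j => Y j ω) hi, add_pow, Finset.mul_sum]
    exact Finset.sum_congr rfl fun j _ => by ring
  simp_rw [h1]
  rw [integral_finsetSum _ fun j _ => (hint _ _).const_mul _]
  refine Finset.sum_congr rfl fun j _ => ?_
  rw [integral_const_mul, hind]
  ring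

/-- The moments of a sum of independent, centred random variables of absolute value at most
`a ≤ 1` are Gaussian up to `O(a)`. -/
theorem ind_moments (r : ℕ) : ∃ C : ℝ, 0 ≤ C ∧ ∀ (Ω : Type) [MeasurableSpace Ω] (μ : Measure Ω)
    [IsProbabilityMeasure μ] (ι : Type) (Y : ι → Ω → ℝ) (a : ℝ), iIndepFun Y μ →
    (∀ i, Measurable (Y i)) → (∀ i ω, |Y i ω| ≤ a) → 0 ≤ a → a ≤ 1 →
    (∀ i, ∫ ω, Y i ω ∂μ = 0) → ∀ s : Finset ι,
    |(∫ ω, (∑ i ∈ s, Y i ω) ^ r ∂μ) - gaussMom (∑ i ∈ s, ∫ ω, Y i ω ^ 2 ∂μ) r| ≤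
      C * (1 + √(∑ i ∈ s, ∫ ω, Y i ω ^ 2 ∂μ)) ^ r * a := by
  classical
  induction r using Nat.strong_induction_on with
  | _ r ih =>
  match r, ih with
  | 0, _ =>
    refine ⟨0, le_rfl, ?_⟩
    intro Ω _ μ _ ι Y a _ _ _ _ _ _ s
    simp [gaussMom]
  | 1, _ =>
    refine ⟨0, le_rfl, ?_⟩
    intro Ω _ μ _ ι Y a _ hm hb _ _ hz s
    have h1 : ∫ ω, (∑ i ∈ s, Y i ω) ^ 1 ∂μ = 0 := by
      simp_rw [pow_one]
      rw [integral_finsetSum _ fun i _ => bint (hm i) (hb i)]
      simp [hz]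
    rw [h1]
    simp [gaussMom]
  | n + 2, ih =>
    choose! C hC0 hC using ih
    set D : ℝ := (n + 1) * (C n + gmc n * n) +
      ∑ j ∈ Finset.range n, ((n + 1).choose (j + 2) : ℝ) * (gmc (n - 1 - j) + C (n - 1 - j)) with hD
    have hD0 : 0 ≤ D := by
      have h1 := hC0 n (by omega)
      have h2 := gmc_nonneg n
      refine add_nonneg (by positivity) (Finset.sum_nonneg fun j hj => ?_)
      have h3 := gmc_nonneg (n - 1 - j)
      have h4 := hC0 (n - 1 - j) (by omega)
      positivity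
    refine ⟨D, hD0, ?_⟩
    intro Ω _ μ _ ι Y a hY hm hb ha0 ha1 hz s
    obtain ⟨v, hv⟩ : ∃ v : ι → ℝ, ∀ i, ∫ ω, Y i ω ^ 2 ∂μ = v i := ⟨_, fun i => rfl⟩
    have hvn : ∀ i, 0 ≤ v i := fun i => by
      rw [← hv]
      exact integral_nonneg fun ω => sq_nonneg _
    have hpi : ∀ i (k : ℕ), Integrable (fun ω => Y i ω ^ k) μ := fun i k =>
      bint ((hm i).pow_const k) (K := a ^ k) fun ω => by
        rw [abs_pow]
        exact pow_le_pow_left₀ (abs_nonneg _) (hb i ω) k
    have hva : ∀ i, v i ≤ a := fun i => by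
      rw [← hv]
      have h1 : ∫ ω, Y i ω ^ 2 ∂μ ≤ ∫ _ω, a ∂μ := by
        refine integral_mono (hpi i 2) (integrable_const _) fun ω => ?_
        have h2 := pow_le_pow_left₀ (abs_nonneg _) (hb i ω) 2
        rw [sq_abs] at h2
        show Y i ω ^ 2 ≤ a
        nlinarith
      simpa using h1
    simp_rw [hv]
    set V : ℝ := ∑ i ∈ s, v i with hVdef
    have hV0 : 0 ≤ V := Finset.sum_nonneg fun i _ => hvn i
    set B : ℝ := 1 + √V with hB
    have hB1 : 1 ≤ B := by
      have := Real.sqrt_nonneg V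
      linarith
    have hVB : V ≤ B ^ 2 := by
      have h1 := Real.sqrt_nonneg V
      have h2 := Real.sq_sqrt hV0
      nlinarith
    have hBp : ∀ k, 0 < B ^ k := fun k => by positivity
    -- bounds for the sums without `i`
    have herase : ∀ i ∈ s, (∑ l ∈ s.erase i, v l) = V - v i := by
      intro i hi
      rw [hVdef, ← Finset.add_sum_erase s v hi]
      ring
    have hE : ∀ i ∈ s, ∀ k, k < n + 2 →
        |(∫ ω, (∑ l ∈ s.erase i, Y l ω) ^ k ∂μ) - gaussMom (V - v i) k| ≤ C k * B ^ k * a := by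
      intro i hi k hk
      have h1 := hC k hk Ω μ ι Y a hY hm hb ha0 ha1 hz (s.erase i)
      simp_rw [hv] at h1
      rw [herase i hi] at h1
      refine h1.trans ?_
      have h2 : √(V - v i) ≤ √V := Real.sqrt_le_sqrt (by linarith [hvn i])
      have h3 : (1 + √(V - v i)) ^ k ≤ B ^ k :=
        pow_le_pow_left₀ (by positivity) (by rw [hB]; linarith) k
      exact mul_le_mul_of_nonneg_right (mul_le_mul_of_nonneg_left h3 (hC0 k hk)) ha0
    have hVi : ∀ i ∈ s, 0 ≤ V - v i := by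
      intro i hi
      rw [← herase i hi]
      exact Finset.sum_nonneg fun l _ => hvn l
    have hG : ∀ i ∈ s, ∀ k, |gaussMom (V - v i) k| ≤ gmc k * B ^ k := by
      intro i hi k
      rw [gaussMom_gmc, abs_mul, abs_of_nonneg (gmc_nonneg k), abs_pow, abs_of_nonneg (hVi i hi)]
      refine mul_le_mul_of_nonneg_left ?_ (gmc_nonneg k)
      calc (V - v i) ^ (k / 2) ≤ (B ^ 2) ^ (k / 2) :=
            pow_le_pow_left₀ (hVi i hi) (by linarith [hvn i]) _
        _ = B ^ (2 * (k / 2)) := by rw [pow_mul]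
        _ ≤ B ^ k := pow_le_pow_right₀ hB1 (by omega)
    -- one term
    have hterm : ∀ i ∈ s, |(∫ ω, Y i ω * (∑ j ∈ s, Y j ω) ^ (n + 1) ∂μ) -
        (n + 1) * v i * gaussMom V n| ≤ v i * (D * B ^ n * a) := by
      intro i hi
      rw [expand hY hm hb s hi n, Finset.sum_range_succ', Finset.sum_range_succ']
      have t0 : ((n + 1).choose 0 : ℝ) * (∫ ω, Y i ω ^ (0 + 1) ∂μ) *
          (∫ ω, (∑ l ∈ s.erase i, Y l ω) ^ (n + 1 - 0) ∂μ) = 0 := by
        simp [hz i]
      have t1 : ((n + 1).choose (0 + 1) : ℝ) * (∫ ω, Y i ω ^ (0 + 1 + 1) ∂μ) *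
          (∫ ω, (∑ l ∈ s.erase i, Y l ω) ^ (n + 1 - (0 + 1)) ∂μ) =
          (n + 1) * v i * ∫ ω, (∑ l ∈ s.erase i, Y l ω) ^ n ∂μ := by
        rw [show (0 + 1 + 1 : ℕ) = 2 by norm_num, hv, show n + 1 - (0 + 1) = n by omega,
          show (0 + 1 : ℕ) = 1 by norm_num, Nat.choose_one_right]
        push_cast
        ring
      rw [t0, t1]
      have e1 : ∀ A m g : ℝ, A + (n + 1) * v i * m + 0 - (n + 1) * v i * g =
          (n + 1) * v i * (m - g) + A := by
        intro A m g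
        ring
      rw [e1]
      have b1 : |(∫ ω, (∑ l ∈ s.erase i, Y l ω) ^ n ∂μ) - gaussMom V n| ≤
          (C n + gmc n * n) * B ^ n * a := by
        have h1 := hE i hi n (by omega)
        have h2 : |gaussMom (V - v i) n - gaussMom V n| ≤ gmc n * n * B ^ n * a := by
          rw [gaussMom_gmc, gaussMom_gmc, ← mul_sub, abs_mul, abs_of_nonneg (gmc_nonneg n)]
          have h3 := pow_sub_le (hVi i hi) (by linarith [hvn i]) hB1 hVB (n / 2)
          have h4 : V - (V - v i) ≤ a := by linarith [hva i]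
          have h5 : ((n / 2 : ℕ) : ℝ) * B ^ (2 * (n / 2)) ≤ n * B ^ n := by
            refine mul_le_mul (by exact_mod_cast Nat.div_le_self n 2)
              (pow_le_pow_right₀ hB1 (by omega)) (by positivity) (by positivity)
          have h6 : ((n / 2 : ℕ) : ℝ) * B ^ (2 * (n / 2)) * (V - (V - v i)) ≤ n * B ^ n * a :=
            mul_le_mul h5 h4 (by linarith [hvn i]) (by positivity)
          calc gmc n * |(V - v i) ^ (n / 2) - V ^ (n / 2)| ≤ gmc n * (n * B ^ n * a) :=
                mul_le_mul_of_nonneg_left (h3.trans h6) (gmc_nonneg n)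
            _ = gmc n * n * B ^ n * a := by ring
        calc |(∫ ω, (∑ l ∈ s.erase i, Y l ω) ^ n ∂μ) - gaussMom V n|
            ≤ |(∫ ω, (∑ l ∈ s.erase i, Y l ω) ^ n ∂μ) - gaussMom (V - v i) n| +
              |gaussMom (V - v i) n - gaussMom V n| := abs_sub_le _ _ _
          _ ≤ C n * B ^ n * a + gmc n * n * B ^ n * a := add_le_add h1 h2
          _ = (C n + gmc n * n) * B ^ n * a := by ring
      have b2 : ∀ j ∈ Finset.range n, |((n + 1).choose (j + 1 + 1) : ℝ) *
          (∫ ω, Y i ω ^ (j + 1 + 1 + 1) ∂μ) *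
          (∫ ω, (∑ l ∈ s.erase i, Y l ω) ^ (n + 1 - (j + 1 + 1)) ∂μ)| ≤
          v i * ((((n + 1).choose (j + 2) : ℝ) * (gmc (n - 1 - j) + C (n - 1 - j))) * B ^ n *
            a) := by
        intro j hj
        have hjn : j < n := Finset.mem_range.1 hj
        have e2 : n + 1 - (j + 1 + 1) = n - 1 - j := by omega
        rw [e2, abs_mul, abs_mul, show j + 1 + 1 = j + 2 by omega]
        have h1 : |∫ ω, Y i ω ^ (j + 2 + 1) ∂μ| ≤ a * v i := by
          calc |∫ ω, Y i ω ^ (j + 2 + 1) ∂μ| ≤ ∫ ω, |Y i ω ^ (j + 2 + 1)| ∂μ :=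
                abs_integral_le_integral_abs
            _ ≤ ∫ ω, a * Y i ω ^ 2 ∂μ := by
                refine integral_mono (hpi i _).abs ((hpi i 2).const_mul a) fun ω => ?_
                show |Y i ω ^ (j + 2 + 1)| ≤ a * Y i ω ^ 2
                have h2 := hb i ω
                have h3 := abs_nonneg (Y i ω)
                have h4 : |Y i ω| ^ (j + 1) ≤ a := by
                  calc |Y i ω| ^ (j + 1) = |Y i ω| ^ j * |Y i ω| := pow_succ _ _
                    _ ≤ 1 * a := mul_le_mul (pow_le_one₀ h3 (h2.trans ha1)) h2 h3 zero_le_one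
                    _ = a := one_mul a
                calc |Y i ω ^ (j + 2 + 1)| = |Y i ω| ^ (j + 1) * |Y i ω| ^ 2 := by
                      rw [abs_pow]; ring
                  _ ≤ a * |Y i ω| ^ 2 := mul_le_mul_of_nonneg_right h4 (by positivity)
                  _ = a * Y i ω ^ 2 := by rw [sq_abs]
            _ = a * v i := by rw [integral_const_mul, hv]
        have h5 : |∫ ω, (∑ l ∈ s.erase i, Y l ω) ^ (n - 1 - j) ∂μ| ≤
            (gmc (n - 1 - j) + C (n - 1 - j)) * B ^ n := by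
          have h6 := hE i hi (n - 1 - j) (by omega)
          have h7 := hG i hi (n - 1 - j)
          have h8 : B ^ (n - 1 - j) ≤ B ^ n := pow_le_pow_right₀ hB1 (by omega)
          have h9 := hC0 (n - 1 - j) (by omega)
          have h10 := gmc_nonneg (n - 1 - j)
          calc |∫ ω, (∑ l ∈ s.erase i, Y l ω) ^ (n - 1 - j) ∂μ|
              = |((∫ ω, (∑ l ∈ s.erase i, Y l ω) ^ (n - 1 - j) ∂μ) -
                gaussMom (V - v i) (n - 1 - j)) + gaussMom (V - v i) (n - 1 - j)| := by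
                rw [sub_add_cancel]
            _ ≤ C (n - 1 - j) * B ^ (n - 1 - j) * a + gmc (n - 1 - j) * B ^ (n - 1 - j) :=
                (abs_add_le _ _).trans (add_le_add h6 h7)
            _ ≤ C (n - 1 - j) * B ^ n * 1 + gmc (n - 1 - j) * B ^ n := by
                refine add_le_add (mul_le_mul (mul_le_mul_of_nonneg_left h8 h9) ha1 ha0
                  (by positivity)) (mul_le_mul_of_nonneg_left h8 h10)
            _ = (gmc (n - 1 - j) + C (n - 1 - j)) * B ^ n := by ring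
        rw [abs_of_nonneg (Nat.cast_nonneg ((n + 1).choose (j + 2)))]
        have h11 : (0 : ℝ) ≤ ((n + 1).choose (j + 2) : ℝ) := Nat.cast_nonneg _
        calc ((n + 1).choose (j + 2) : ℝ) * |∫ ω, Y i ω ^ (j + 2 + 1) ∂μ| *
              |∫ ω, (∑ l ∈ s.erase i, Y l ω) ^ (n - 1 - j) ∂μ|
            ≤ ((n + 1).choose (j + 2) : ℝ) * (a * v i) *
              ((gmc (n - 1 - j) + C (n - 1 - j)) * B ^ n) := by
              refine mul_le_mul (mul_le_mul_of_nonneg_left h1 h11) h5 (abs_nonneg _) ?_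
              have := hvn i
              positivity
          _ = v i * ((((n + 1).choose (j + 2) : ℝ) * (gmc (n - 1 - j) + C (n - 1 - j))) * B ^ n *
            a) := by ring
      calc |(n + 1) * v i * ((∫ ω, (∑ l ∈ s.erase i, Y l ω) ^ n ∂μ) - gaussMom V n) +
            ∑ j ∈ Finset.range n, ((n + 1).choose (j + 1 + 1) : ℝ) *
          (∫ ω, Y i ω ^ (j + 1 + 1 + 1) ∂μ) *
          (∫ ω, (∑ l ∈ s.erase i, Y l ω) ^ (n + 1 - (j + 1 + 1)) ∂μ)|
          ≤ (n + 1) * v i * ((C n + gmc n * n) * B ^ n * a) +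
            ∑ j ∈ Finset.range n, v i * ((((n + 1).choose (j + 2) : ℝ) *
              (gmc (n - 1 - j) + C (n - 1 - j))) * B ^ n * a) := by
            refine (abs_add_le _ _).trans (add_le_add ?_ ?_)
            · rw [abs_mul, abs_of_nonneg (mul_nonneg (by positivity) (hvn i))]
              exact mul_le_mul_of_nonneg_left b1 (mul_nonneg (by positivity) (hvn i))
            · exact (Finset.abs_sum_le_sum_abs _ _).trans (Finset.sum_le_sum b2)
        _ = v i * (D * B ^ n * a) := by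
            rw [← Finset.mul_sum, ← Finset.sum_mul, ← Finset.sum_mul, hD]
            ring
    -- the sum
    have hmain : ∫ ω, (∑ i ∈ s, Y i ω) ^ (n + 2) ∂μ =
        ∑ i ∈ s, ∫ ω, Y i ω * (∑ j ∈ s, Y j ω) ^ (n + 1) ∂μ := by
      have h1 : ∀ ω, (∑ i ∈ s, Y i ω) ^ (n + 2) = ∑ i ∈ s, Y i ω * (∑ j ∈ s, Y j ω) ^ (n + 1) := by
        intro ω
        rw [← Finset.sum_mul]
        ring
      simp_rw [h1]
      refine integral_finsetSum _ fun i _ => ?_
      have hSm : Measurable fun ω => ∑ l ∈ s, Y l ω := Finset.measurable_sum _ fun l _ => hm l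
      refine bint ((hm i).mul (hSm.pow_const (n + 1))) (K := a * (s.card * a) ^ (n + 1)) fun ω => ?_
      rw [abs_mul, abs_pow]
      refine mul_le_mul (hb i ω) (pow_le_pow_left₀ (abs_nonneg _) ?_ _) (by positivity) ha0
      calc |∑ l ∈ s, Y l ω| ≤ ∑ l ∈ s, |Y l ω| := Finset.abs_sum_le_sum_abs _ _
        _ ≤ ∑ _l ∈ s, a := Finset.sum_le_sum fun l _ => hb l ω
        _ = s.card * a := by rw [Finset.sum_const, nsmul_eq_mul]
    rw [hmain, gaussMom_add_two]
    have e3 : (n + 1) * V * gaussMom V n = ∑ i ∈ s, (n + 1) * v i * gaussMom V n := by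
      rw [← Finset.sum_mul, ← Finset.mul_sum]
    rw [e3, ← Finset.sum_sub_distrib]
    calc |∑ i ∈ s, ((∫ ω, Y i ω * (∑ j ∈ s, Y j ω) ^ (n + 1) ∂μ) - (n + 1) * v i * gaussMom V n)|
        ≤ ∑ i ∈ s, v i * (D * B ^ n * a) :=
          (Finset.abs_sum_le_sum_abs _ _).trans (Finset.sum_le_sum hterm)
      _ = V * (D * B ^ n * a) := by rw [← Finset.sum_mul]
      _ ≤ B ^ 2 * (D * B ^ n * a) := by
          have := hBp n
          exact mul_le_mul_of_nonneg_right hVB (by positivity)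
      _ = D * B ^ (n + 2) * a := by ring

end GWin
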